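import Mathlib
import Pool.Agent.Q66.SH.Stm

/-!
# Job BLU: approximation numbers of block diagonal operators, upper bound
-/

set_option autoImplicit false

open Filter Topology
open scoped ENNReal

namespace Pool.Agent.Q143.SH

open Pool.Agent.Q66.SH

section
variable {H : Type} [NormedAddCommGroup H] [InnerProductSpace ℂ H]

theorem rank_zero (k : ℕ) : RankLE (0 : H →L[ℂ] H) k :=
  ⟨⊥, inferInstance, by simp, fun x => by simp⟩

variable [CompleteSpace H]

theorem rank_sum (hR : S_RK) (F : ℕ → (H →L[ℂ] H)) (d : ℕ → ℕ) (n : ℕ)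
    (h : ∀ j < n, RankLE (F j) (d j)) :
    RankLE (∑ j ∈ Finset.range n, F j) (∑ j ∈ Finset.range n, d j) := by
  induction n with
  | zero => simpa using rank_zero (H := H) 0
  | succ n ih =>
    rw [Finset.sum_range_succ, Finset.sum_range_succ]
    exact (hR H).2.1 _ _ _ _ (ih fun j hj => h j (hj.trans (Nat.lt_succ_self n)))
      (h n (Nat.lt_succ_self n))

theorem norm_proj {Q : ℕ → (H →L[ℂ] H)} (hQ : OrthProj Q) (j : ℕ) : ‖Q j‖ ≤ 1 := by
  have h := ContinuousLinearMap.norm_adjoint_comp_self (Q j)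
  rw [hQ.2.2 j] at h
  have h2 : (Q j).comp (Q j) = Q j := hQ.1 j
  rw [h2] at h
  by_contra hc
  push Not at hc
  nlinarith [norm_nonneg (Q j)]

/-- the number of the approximation numbers above `t` -/
theorem apx_card_le (hA : S_APB) (T : H →L[ℂ] H) (t : ℝ≥0∞)
    (hf : {i | t < apx i T}.encard ≠ ⊤) : apx ({i | t < apx i T}.encard.toNat) T ≤ t := by
  by_contra hc
  push Not at hc
  set d := {i | t < apx i T}.encard.toNat with hd
  have hsub : Set.Iic d ⊆ {i | t < apx i T} := fun i hi =>
    lt_of_lt_of_le hc ((hA H).2.2.1 T hi)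
  have h1 := Set.encard_le_encard hsub
  have h2 : (Set.Iic d).encard = ((d + 1 : ℕ) : ℕ∞) := by
    rw [← Finset.coe_Iic, Set.encard_coe_eq_coe_finsetCard, Nat.card_Iic]
  rw [h2, ← ENat.natCast_toNat hf, ← hd] at h1
  have h3 : d + 1 ≤ d := by exact_mod_cast h1
  omega

end

/-- Job BLU. -/
theorem t_BLU (hN : S_BN) (hA : S_APB) (hR : S_RK) : S_BLU := by
  intro H _ _ _ Q hQ D n hD t ht
  classical
  by_cases htop : ∑ j ∈ Finset.range n, {i | t < apx i (D j)}.encard = ⊤
  · rw [htop]
    exact le_top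
  have hfin : ∀ j ∈ Finset.range n, {i | t < apx i (D j)}.encard ≠ ⊤ := by
    intro j hj hc
    exact htop (WithTop.sum_eq_top.2 ⟨j, hj, hc⟩)
  set d : ℕ → ℕ := fun j => {i | t < apx i (D j)}.encard.toNat with hd
  have hsum : ∑ j ∈ Finset.range n, {i | t < apx i (D j)}.encard =
      ((∑ j ∈ Finset.range n, d j : ℕ) : ℕ∞) := by
    rw [Nat.cast_sum]
    exact Finset.sum_congr rfl fun j hj => (ENat.natCast_toNat (hfin j hj)).symm
  rw [hsum]
  have hle : apx (∑ j ∈ Finset.range n, d j) (∑ j ∈ Finset.range n, D j) ≤ t := by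
    refine le_of_forall_gt fun a ha => ?_
    obtain ⟨r, hr1, hr2⟩ := ENNReal.lt_iff_exists_nnreal_btwn.1 ha
    have hex : ∀ j, ∃ F : H →L[ℂ] H, j < n → RankLE F (d j) ∧ ‖D j - F‖ₑ < r := by
      intro j
      by_cases hj : j < n
      · have h1 : apx (d j) (D j) < r :=
          lt_of_le_of_lt (apx_card_le hA (D j) t (hfin j (Finset.mem_range.2 hj))) hr1
        unfold apx at h1
        rw [iInf_lt_iff] at h1
        obtain ⟨F, hF⟩ := h1
        rw [iInf_lt_iff] at hF
        obtain ⟨hF1, hF2⟩ := hF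
        exact ⟨F, fun _ => ⟨hF1, hF2⟩⟩
      · exact ⟨0, fun h => absurd h hj⟩
    choose F hF using hex
    have hb := hN H Q hQ (fun j => Q j * (D j - F j) * Q j) r n r.2
      (fun j _ => by
        show Q j * (D j - F j) * Q j = Q j * (Q j * (D j - F j) * Q j) * Q j
        have := hQ.1 j
        calc Q j * (D j - F j) * Q j = (Q j * Q j) * (D j - F j) * (Q j * Q j) := by rw [this]
          _ = _ := by simp only [mul_assoc])
      (fun j hj => by
        have h1 : ‖D j - F j‖ ≤ r := by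
          have := (hF j hj).2.le
          rw [← ofReal_norm, ← ENNReal.ofReal_coe_nnreal] at this
          exact (ENNReal.ofReal_le_ofReal_iff r.2).1 this
        calc ‖Q j * (D j - F j) * Q j‖ ≤ ‖Q j‖ * ‖D j - F j‖ * ‖Q j‖ :=
              (norm_mul_le _ _).trans (mul_le_mul_of_nonneg_right (norm_mul_le _ _) (norm_nonneg _))
          _ ≤ 1 * r * 1 := by
              gcongr
              · exact norm_proj hQ j
              · exact norm_proj hQ j
          _ = r := by ring)
    have heq : ∑ j ∈ Finset.range n, Q j * (D j - F j) * Q j =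
        ∑ j ∈ Finset.range n, D j - ∑ j ∈ Finset.range n, Q j * F j * Q j := by
      rw [← Finset.sum_sub_distrib]
      refine Finset.sum_congr rfl fun j hj => ?_
      rw [mul_sub, sub_mul, ← hD j (Finset.mem_range.1 hj)]
    rw [heq] at hb
    have hrk : RankLE (∑ j ∈ Finset.range n, Q j * F j * Q j) (∑ j ∈ Finset.range n, d j) :=
      rank_sum hR _ _ n fun j hj => (hR H).1 _ _ _ _ (hF j hj).1
    refine lt_of_le_of_lt ?_ hr2
    unfold apx
    refine iInf_le_of_le _ (iInf_le_of_le hrk ?_)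
    rw [← ofReal_norm, ← ENNReal.ofReal_coe_nnreal]
    exact ENNReal.ofReal_le_ofReal hb
  have hsub : {i | t < apx i (∑ j ∈ Finset.range n, D j)} ⊆
      Set.Iio (∑ j ∈ Finset.range n, d j) := by
    intro i hi
    by_contra hc
    have hc' : ∑ j ∈ Finset.range n, d j ≤ i := not_lt.1 hc
    exact absurd (lt_of_lt_of_le hi (((hA H).2.2.1 _ hc').trans hle)) (lt_irrefl _)
  refine (Set.encard_le_encard hsub).trans (le_of_eq ?_)
  rw [← Finset.coe_Iio, Set.encard_coe_eq_coe_finsetCard, Nat.card_Iio]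

end Pool.Agent.Q143.SH
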