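import Mathlib
import Pool.Agent.Q66.SH.Stm

/-!
# Job HS: the Hilbert-Schmidt norm in a basis
-/

set_option autoImplicit false

open Filter Topology
open scoped ENNReal

namespace Pool.Agent.Q143.SH

open Pool.Agent.Q66.SH

section
variable {H : Type} [NormedAddCommGroup H] [InnerProductSpace ℂ H]

theorem orth_sum {f : ℕ → H} (hf : Orthonormal ℂ f) {c : ℕ → ℂ} {v : H}
    (h : HasSum (fun j => c j • f j) v) : HasSum (fun j => ‖c j‖ ^ 2) (‖v‖ ^ 2) := by
  have hc : ∀ k, inner ℂ (f k) v = c k := by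
    intro k
    have h1 : HasSum (fun j => inner ℂ (f k) (c j • f j)) (inner ℂ (f k) v) :=
      (innerSL ℂ (f k)).hasSum h
    have h2 : HasSum (fun j => inner ℂ (f k) (c j • f j)) (inner ℂ (f k) (c k • f k)) := by
      refine hasSum_single k fun j hj => ?_
      rw [inner_smul_right, hf.2 (Ne.symm hj), mul_zero]
    rw [h1.unique h2, inner_smul_right, inner_self_eq_norm_sq_to_K, hf.1 k]
    simp
  have h1 : HasSum (fun j => inner ℂ v (c j • f j)) (inner ℂ v v) := (innerSL ℂ v).hasSum h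
  have h2 := Complex.reCLM.hasSum h1
  have h3 : Complex.reCLM (inner ℂ v v) = ‖v‖ ^ 2 := inner_self_eq_norm_sq (𝕜 := ℂ) v
  rw [h3] at h2
  convert h2 using 2 with j
  rw [inner_smul_right, ← inner_conj_symm, hc j]
  show ‖c j‖ ^ 2 = (c j * (starRingEnd ℂ) (c j)).re
  rw [Complex.mul_conj, Complex.ofReal_re, Complex.normSq_eq_norm_sq]

theorem parseval (b : HilbertBasis ℕ ℂ H) (v : H) :
    HasSum (fun i => ‖inner ℂ (b i) v‖ ^ 2) (‖v‖ ^ 2) := by
  refine orth_sum b.orthonormal ?_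
  have h := b.hasSum_repr v
  convert h using 2 with i
  rw [b.repr_apply_apply]

/-- in `ENNReal` -/
theorem tsum_ofReal {f : ℕ → ℝ} {r : ℝ} (h : HasSum f r) (hf : ∀ i, 0 ≤ f i) :
    ∑' i, ENNReal.ofReal (f i) = ENNReal.ofReal r := by
  rw [← ENNReal.ofReal_tsum_of_nonneg hf h.summable, h.tsum_eq]

end

/-- Job HS. -/
theorem t_HS : S_HS := by
  intro H _ _ _ b T s hT hs
  obtain ⟨-, -, -, e, f, he, hf, hx⟩ := hT
  have key : ∑' z : ℕ × ℕ, ENNReal.ofReal (‖inner ℂ (b z.1) (T (b z.2))‖ ^ 2) =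
      ENNReal.ofReal (∑' j, s j ^ 2) := by
    rw [ENNReal.tsum_prod (f := fun l i => ENNReal.ofReal (‖inner ℂ (b l) (T (b i))‖ ^ 2)),
      ENNReal.tsum_comm]
    have h1 : ∀ i, ∑' l, ENNReal.ofReal (‖inner ℂ (b l) (T (b i))‖ ^ 2) =
        ∑' j, ENNReal.ofReal (s j ^ 2 * ‖inner ℂ (b i) (e j)‖ ^ 2) := by
      intro i
      rw [tsum_ofReal (parseval b (T (b i))) fun _ => sq_nonneg _,
        ← tsum_ofReal (orth_sum hf (hx (b i))) fun _ => sq_nonneg _]
      refine tsum_congr fun j => ?_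
      rw [norm_mul, mul_pow, Complex.norm_real, Real.norm_eq_abs, sq_abs, norm_inner_symm]
    rw [tsum_congr h1, ENNReal.tsum_comm]
    have h2 : ∀ j, ∑' i, ENNReal.ofReal (s j ^ 2 * ‖inner ℂ (b i) (e j)‖ ^ 2) =
        ENNReal.ofReal (s j ^ 2) := by
      intro j
      have h3 := (parseval b (e j)).mul_left (s j ^ 2)
      rw [he.1 j, one_pow, mul_one] at h3
      exact tsum_ofReal h3 fun _ => by positivity
    rw [tsum_congr h2]
    exact tsum_ofReal hs.hasSum fun _ => sq_nonneg _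
  have h := ENNReal.hasSum_toReal (f := fun z : ℕ × ℕ =>
    ENNReal.ofReal (‖inner ℂ (b z.1) (T (b z.2))‖ ^ 2)) (by rw [key]; exact ENNReal.ofReal_ne_top)
  rw [← ENNReal.tsum_toReal_eq (fun z => ENNReal.ofReal_ne_top), key,
    ENNReal.toReal_ofReal (tsum_nonneg fun j => sq_nonneg _)] at h
  convert h using 2 with z
  rw [ENNReal.toReal_ofReal (sq_nonneg _)]

end Pool.Agent.Q143.SH
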